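import Pool.Agent.helper8.AP.SpecR

set_option autoImplicit false

namespace Pool.Agent.AP

open Finset

theorem RPT_sum (g : ℕ → ℝ) (a : ℕ → ℕ) (ha : Monotone a) (m n : ℕ) (hmn : m ≤ n) :
    ∑ i ∈ Ico m n, ∑ z ∈ Ioc (a i) (a (i + 1)), g z = ∑ z ∈ Ioc (a m) (a n), g z := by
  induction n, hmn using Nat.le_induction with
  | base => simp
  | succ n hn ih =>
    rw [Finset.sum_Ico_succ_top hn, ih, Finset.sum_Ioc_consecutive g (ha hn) (ha (Nat.le_succ n))]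

theorem RPT_mono (K : ℕ) (Z : ℝ) (hZ : 0 < Z) : Monotone fun i : ℕ => ⌊(i : ℝ) / K * Z⌋₊ := by
  intro i j hij
  apply Nat.floor_mono
  apply mul_le_mul_of_nonneg_right _ hZ.le
  apply div_le_div_of_nonneg_right _ (Nat.cast_nonneg K)
  exact_mod_cast hij

theorem RPT : RPT_stmt := by
  intro f K Z V hK hKe hZ hV
  obtain ⟨r, hr⟩ := hKe
  have hr1 : 1 ≤ r := by omega
  have hK2 : K / 2 = r := by omega
  have hKR : (K : ℝ) = 2 * r := by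
    rw [hr]
    push_cast
    ring
  have hrR : (0 : ℝ) < r := by exact_mod_cast hr1
  have hK0 : (0 : ℝ) < K := by rw [hKR]; positivity
  have e1 : ∀ i ∈ Ico (K / 2) K, ∑ j ∈ range (2 * K),
      ∑ z ∈ Ioc ⌊(i : ℝ) / K * Z⌋₊ ⌊((i : ℝ) + 1) / K * Z⌋₊,
        ∑ y ∈ Ioc ⌊(j : ℝ) / K * V⌋₊ ⌊((j : ℝ) + 1) / K * V⌋₊, f z y =
      ∑ z ∈ Ioc ⌊(i : ℝ) / K * Z⌋₊ ⌊((i + 1 : ℕ) : ℝ) / K * Z⌋₊, ∑ y ∈ Ioc 0 ⌊2 * V⌋₊, f z y := by
    intro i _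
    rw [Finset.sum_comm]
    have e0 : ((i + 1 : ℕ) : ℝ) = (i : ℝ) + 1 := by push_cast; ring
    rw [e0]
    refine Finset.sum_congr rfl fun z _ => ?_
    have e2 := RPT_sum (f z) (fun j : ℕ => ⌊(j : ℝ) / K * V⌋₊) (RPT_mono K V hV) 0 (2 * K) (Nat.zero_le _)
    rw [← Finset.range_eq_Ico] at e2
    have e3 : ⌊((0 : ℕ) : ℝ) / K * V⌋₊ = 0 := by simp
    have e4 : ((2 * K : ℕ) : ℝ) / K * V = 2 * V := by
      push_cast
      field_simp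
    simp only [e3, e4] at e2
    rw [← e2]
    refine Finset.sum_congr rfl fun j _ => ?_
    push_cast
    rfl
  rw [Finset.sum_congr rfl e1]
  have e5 := RPT_sum (fun z => ∑ y ∈ Ioc 0 ⌊2 * V⌋₊, f z y) (fun i : ℕ => ⌊(i : ℝ) / K * Z⌋₊) (RPT_mono K Z hZ) (K / 2) K
    (Nat.div_le_self _ _)
  refine Eq.trans ?_ e5.symm
  have e6 : ((K / 2 : ℕ) : ℝ) / K * Z = Z / 2 := by
    rw [hK2, hKR]
    field_simp
  have e7 : (K : ℝ) / K * Z = Z := by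
    field_simp
  simp only [e6, e7]

end Pool.Agent.AP
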